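import Pool.Agent.N662.SE.Stm
import Pool.Agent.TH967.DP.Paths

/-!
# Concentration of the free energy of the directed polymer
-/

set_option autoImplicit false

open MeasureTheory ProbabilityTheory Filter Topology

namespace Pool.Agent.N523.SE.CONC

open TH967.DP Pool.Agent.N662.SE

variable {d : ℕ}

/-- the sites within distance `n` -/
abbrev Box (d n : ℕ) : Type :=
  {y : Fin d → ℤ // y ∈ Fintype.piFinset (fun _ : Fin d => Finset.Icc (-(n:ℤ)) n)}

/-- the site visited at time `i + 1` -/
def site {n : ℕ} (w : Fin n → Step d) (i : Fin n) : Box d n := ⟨pos w (i.val + 1), by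
  rw [Fintype.mem_piFinset]
  intro k
  rw [Finset.mem_Icc]
  exact abs_le.1 (abs_pos_le w (i.val + 1) k)⟩

/-- the logarithm of the partition function -/
noncomputable def ff (β : ℝ) (h : Fin d → ℝ) (n : ℕ) (x : Fin n → Box d n → ℝ) : ℝ :=
  Real.log (∑ w : Fin n → Step d,
    Real.exp (β * ∑ i, x i (site w i) + ∑ k, h k * (pos w n k : ℝ)))

theorem lw_eq {Ω : Type} (ω : ℕ → (Fin d → ℤ) → Ω → ℝ) (β : ℝ) (h : Fin d → ℝ) (m : ℕ)
    (z : Fin d → ℤ) (n : ℕ) (a : Ω) :
    lw ω β h m z n a = ff β h n (fun i y => ω (m + (i.val + 1)) (z + y.1) a) := by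
  unfold lw part ff energy
  simp [site]

theorem law {Ω : Type} [MeasurableSpace Ω] {P : Measure Ω} [IsProbabilityMeasure P]
    {ω : ℕ → (Fin d → ℤ) → Ω → ℝ} (hω : IsEnv P ω) (m : ℕ) (z : Fin d → ℤ) (n : ℕ) :
    P.map (fun a (i : Fin n) (y : Box d n) => ω (m + (i.val + 1)) (z + y.1) a) =
      Measure.pi (fun _ : Fin n => Measure.pi (fun _ : Box d n => P.map (ω 1 0))) := by
  have hp : IsProbabilityMeasure (P.map (ω 1 0)) :=
    Measure.isProbabilityMeasure_map (hω.meas 1 0).aemeasurable
  set φ : Fin n × Box d n → ℕ × (Fin d → ℤ) := fun p => (m + (p.1.val + 1), z + p.2.1) with hφ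
  have inj : Function.Injective φ := by
    rintro ⟨i, y⟩ ⟨i', y'⟩ hh
    simp only [hφ, Prod.mk.injEq] at hh
    have h1 : i = i' := Fin.ext (by omega)
    have h2 : y = y' := Subtype.ext (add_left_cancel hh.2)
    rw [h1, h2]
  have h1 := hω.indep.precomp inj
  rw [iIndepFun_iff_map_fun_eq_pi_map (fun i => (hω.meas _ _).aemeasurable)] at h1
  have h3 : P.map (fun a k => ω (φ k).1 (φ k).2 a) =
      Measure.pi (fun _ : Fin n × Box d n => P.map (ω 1 0)) := by
    rw [h1]
    congr 1
    ext1 k
    exact (hω.ident _ _).map_eq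
  have h2 := Measure.infinitePi_map_curry (fun (_ : Fin n) (_ : Box d n) => P.map (ω 1 0))
  simp_rw [Measure.infinitePi_eq_pi] at h2
  rw [← h2, ← h3, Measure.map_map (MeasurableEquiv.measurable _)]
  · rfl
  · rw [measurable_pi_iff]
    intro k
    exact hω.meas _ _

theorem meas_ff (β : ℝ) (h : Fin d → ℝ) (n : ℕ) : Measurable (ff β h n) := by
  unfold ff
  refine Real.measurable_log.comp (Finset.measurable_fun_sum _ fun w _ => ?_)
  refine Real.measurable_exp.comp (Measurable.add_const (Measurable.const_mul ?_ β) _)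
  refine Finset.measurable_fun_sum _ fun i _ => ?_
  exact (measurable_pi_apply (site w i)).comp (measurable_pi_apply i)

/-- the effect of one row -/
theorem row_bound {ι : Type} [Fintype ι] [Nonempty ι] (a t : ι → ℝ) (ha : ∀ w, 0 < a w) :
    Real.exp |Real.log (∑ w, a w * Real.exp (t w)) - Real.log (∑ w, a w)| ≤
      ∑ w, a w / (∑ w, a w) * (Real.exp (t w) + Real.exp (-(t w))) := by
  set A := ∑ w, a w with hA
  have A0 : 0 < A := Finset.sum_pos (fun w _ => ha w) Finset.univ_nonempty
  have B0 : 0 < ∑ w, a w * Real.exp (t w) :=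
    Finset.sum_pos (fun w _ => mul_pos (ha w) (Real.exp_pos _)) Finset.univ_nonempty
  set s := ∑ w, a w / A * Real.exp (t w) with hs
  have hsB : s = (∑ w, a w * Real.exp (t w)) / A := by
    rw [hs, Finset.sum_div]
    exact Finset.sum_congr rfl fun w _ => by ring
  have s0 : 0 < s := by rw [hsB]; positivity
  have q1 : ∑ w, a w / A = 1 := by
    rw [← Finset.sum_div, ← hA, div_self A0.ne']
  have hU : Real.log (∑ w, a w * Real.exp (t w)) - Real.log A = Real.log s := by
    rw [hsB, Real.log_div B0.ne' A0.ne']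
  rw [hU]
  have h1 : Real.exp |Real.log s| ≤ s + 1 / s := by
    rcases le_total 0 (Real.log s) with h | h
    · rw [abs_of_nonneg h, Real.exp_log s0]
      have : 0 < 1 / s := by positivity
      linarith
    · rw [abs_of_nonpos h, Real.exp_neg, Real.exp_log s0, one_div]
      linarith
  have h2 : 1 / s ≤ ∑ w, a w / A * Real.exp (-(t w)) := by
    have h3 : ∀ w, a w / A * (2 / s - Real.exp (t w) / s ^ 2) ≤ a w / A * Real.exp (-(t w)) := by
      intro w
      refine mul_le_mul_of_nonneg_left ?_ (div_pos (ha w) A0).le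
      rw [Real.exp_neg]
      have e0 := Real.exp_pos (t w)
      have h4 : (Real.exp (t w))⁻¹ - (2 / s - Real.exp (t w) / s ^ 2) =
          (Real.exp (t w))⁻¹ * (1 - Real.exp (t w) / s) ^ 2 := by
        field_simp
        ring
      have h5 : 0 ≤ (Real.exp (t w))⁻¹ * (1 - Real.exp (t w) / s) ^ 2 := by positivity
      linarith
    have h4 := Finset.sum_le_sum fun w (_ : w ∈ Finset.univ) => h3 w
    have h5 : ∑ w, a w / A * (2 / s - Real.exp (t w) / s ^ 2) = 1 / s := by
      have : ∀ w, a w / A * (2 / s - Real.exp (t w) / s ^ 2) =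
          (2 / s) * (a w / A) - (1 / s ^ 2) * (a w / A * Real.exp (t w)) := fun w => by ring
      simp_rw [this]
      rw [Finset.sum_sub_distrib, ← Finset.mul_sum, ← Finset.mul_sum, q1, ← hs]
      field_simp
      ring
    rw [h5] at h4
    exact h4
  have h6 : ∑ w, a w / A * (Real.exp (t w) + Real.exp (-(t w))) =
      s + ∑ w, a w / A * Real.exp (-(t w)) := by
    rw [hs, ← Finset.sum_add_distrib]
    exact Finset.sum_congr rfl fun w _ => by ring
  rw [h6]
  linarith

/-- the exponential moment of the effect of one row -/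
theorem row_int (hd : 1 ≤ d) {Ω : Type} [MeasurableSpace Ω] {P : Measure Ω}
    [IsProbabilityMeasure P] {ω : ℕ → (Fin d → ℤ) → Ω → ℝ} (hω : IsEnv P ω)
    (hexp : ∀ b : ℝ, Integrable (fun x => Real.exp (b * ω 1 0 x)) P) (β : ℝ) (h : Fin d → ℝ)
    (n : ℕ) (i : Fin n) (x : Fin n → Box d n → ℝ) :
    ∫⁻ e, ENNReal.ofReal (Real.exp |ff β h n (Function.update x i e) -
      ff β h n (Function.update x i 0)|) ∂(Measure.pi fun _ : Box d n => P.map (ω 1 0)) ≤
      ENNReal.ofReal (mom P ω β) := by
  have hp : IsProbabilityMeasure (P.map (ω 1 0)) :=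
    Measure.isProbabilityMeasure_map (hω.meas 1 0).aemeasurable
  have : Nonempty (Step d) := ⟨(⟨0, hd⟩, true)⟩
  set ρ : Measure (Box d n → ℝ) := Measure.pi (fun _ : Box d n => P.map (ω 1 0)) with hρ
  set a : (Fin n → Step d) → ℝ := fun w => Real.exp (β * ∑ j, Function.update x i 0 j (site w j)
    + ∑ k, h k * (pos w n k : ℝ)) with ha
  have a0 : ∀ w, 0 < a w := fun w => Real.exp_pos _
  have e1 : ∀ e : Box d n → ℝ, ff β h n (Function.update x i e) =
      Real.log (∑ w, a w * Real.exp (β * e (site w i))) := by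
    intro e
    unfold ff
    congr 1
    refine Finset.sum_congr rfl fun w _ => ?_
    rw [ha, ← Real.exp_add]
    congr 1
    have h1 : ∀ j, Function.update x i e j (site w j) =
        Function.update x i 0 j (site w j) + (if j = i then e (site w i) else 0) := by
      intro j
      by_cases hj : j = i
      · subst hj
        simp
      · simp [Function.update_of_ne hj, hj]
    simp_rw [h1]
    rw [Finset.sum_add_distrib, Finset.sum_ite_eq' Finset.univ i, if_pos (Finset.mem_univ i)]
    ring
  have e2 : ff β h n (Function.update x i 0) = Real.log (∑ w, a w) := rfl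
  set A := ∑ w, a w with hA
  have A0 : 0 < A := Finset.sum_pos (fun w _ => a0 w) Finset.univ_nonempty
  have hev : ∀ (b : ℝ) (y : Box d n), Integrable (fun e : Box d n → ℝ => Real.exp (b * e y)) ρ ∧
      ∫ e, Real.exp (b * e y) ∂ρ = ∫ u, Real.exp (b * ω 1 0 u) ∂P := by
    intro b y
    have m1 : Measurable (fun t : ℝ => Real.exp (b * t)) := by fun_prop
    have h1 := measurePreserving_eval (fun _ : Box d n => P.map (ω 1 0)) y
    have h2 : Integrable (fun t : ℝ => Real.exp (b * t)) (P.map (ω 1 0)) :=
      (integrable_map_measure m1.aestronglyMeasurable (hω.meas 1 0).aemeasurable).2 (hexp b)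
    refine ⟨(h1.integrable_comp m1.aestronglyMeasurable).2 h2, ?_⟩
    have h3 := integral_map (μ := ρ) h1.measurable.aemeasurable
      (f := fun t : ℝ => Real.exp (b * t)) m1.aestronglyMeasurable
    rw [h1.map_eq] at h3
    have h4 := integral_map (μ := P) (hω.meas 1 0).aemeasurable
      (f := fun t : ℝ => Real.exp (b * t)) m1.aestronglyMeasurable
    rw [h4] at h3
    exact h3.symm
  have hpt : ∀ e : Box d n → ℝ, Real.exp |ff β h n (Function.update x i e) -
      ff β h n (Function.update x i 0)| ≤
      ∑ w, a w / A * (Real.exp (β * e (site w i)) + Real.exp (-β * e (site w i))) := by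
    intro e
    rw [e1, e2]
    refine (row_bound a (fun w => β * e (site w i)) a0).trans (le_of_eq ?_)
    refine Finset.sum_congr rfl fun w _ => ?_
    rw [neg_mul]
  have iw : ∀ w, Integrable (fun e : Box d n → ℝ => a w / A *
      (Real.exp (β * e (site w i)) + Real.exp (-β * e (site w i)))) ρ := fun w =>
    ((hev β (site w i)).1.add (hev (-β) (site w i)).1).const_mul _
  have isum : Integrable (fun e : Box d n → ℝ => ∑ w, a w / A *
      (Real.exp (β * e (site w i)) + Real.exp (-β * e (site w i)))) ρ :=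
    integrable_finsetSum _ fun w _ => iw w
  refine (lintegral_mono fun e => ENNReal.ofReal_le_ofReal (hpt e)).trans ?_
  rw [← ofReal_integral_eq_lintegral_ofReal isum (Eventually.of_forall fun e =>
    (Real.exp_pos _).le.trans (hpt e))]
  apply ENNReal.ofReal_le_ofReal
  rw [integral_finsetSum _ fun w _ => iw w]
  have h5 : ∀ w, ∫ e, a w / A * (Real.exp (β * e (site w i)) + Real.exp (-β * e (site w i))) ∂ρ =
      a w / A * mom P ω β := by
    intro w
    rw [integral_const_mul, integral_add (hev β (site w i)).1 (hev (-β) (site w i)).1,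
      (hev β (site w i)).2, (hev (-β) (site w i)).2, mom]
    simp only [neg_mul]
  simp_rw [h5]
  rw [← Finset.sum_mul, ← Finset.sum_div, ← hA, div_self A0.ne', one_mul]

theorem main (hM : S_MGF) : S_CONC := by
  intro d hd Ω _ P _ ω hω hexp β h m z n
  have hp : IsProbabilityMeasure (P.map (ω 1 0)) :=
    Measure.isProbabilityMeasure_map (hω.meas 1 0).aemeasurable
  have : Nonempty (Step d) := ⟨(⟨0, hd⟩, true)⟩
  set ρ : Measure (Box d n → ℝ) := Measure.pi (fun _ : Box d n => P.map (ω 1 0)) with hρ
  have hMG := hM (Box d n → ℝ) ρ n (ff β h n) (fun i x => ff β h n (Function.update x i 0))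
    (mom P ω β) (meas_ff β h n)
    (fun i => (meas_ff β h n).comp (measurable_update' .. |>.comp
      (measurable_id.prodMk measurable_const)))
    (fun i x e => by simp only [Function.update_idem])
    (fun i x => row_int hd hω hexp β h n i x)
  obtain ⟨iff, hl⟩ := hMG
  have key : ∀ (m : ℕ) (z : Fin d → ℤ), MeasurePreserving
      (fun a (i : Fin n) (y : Box d n) => ω (m + (i.val + 1)) (z + y.1) a) P
      (Measure.pi fun _ : Fin n => ρ) := by
    intro m z
    refine ⟨?_, law hω m z n⟩
    refine measurable_pi_iff.2 fun i => measurable_pi_iff.2 fun y => hω.meas _ _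
  have elw : ∀ (m : ℕ) (z : Fin d → ℤ), lw ω β h m z n = fun a =>
      ff β h n (fun i y => ω (m + (i.val + 1)) (z + y.1) a) := fun m z =>
    funext fun a => lw_eq ω β h m z n a
  have eint : ∀ (m : ℕ) (z : Fin d → ℤ), ∫ a, lw ω β h m z n a ∂P =
      ∫ x, ff β h n x ∂(Measure.pi fun _ : Fin n => ρ) := by
    intro m z
    rw [elw m z, ← (key m z).map_eq]
    exact (integral_map (key m z).measurable.aemeasurable
      (meas_ff β h n).aestronglyMeasurable).symm
  have efree : free P ω β h n = ∫ x, ff β h n x ∂(Measure.pi fun _ : Fin n => ρ) := eint 0 0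
  refine ⟨?_, ?_, ?_, ?_⟩
  · rw [elw m z]
    exact (meas_ff β h n).comp (key m z).measurable
  · rw [elw m z]
    exact ((key m z).integrable_comp (meas_ff β h n).aestronglyMeasurable).2 iff
  · rw [efree, eint]
  · intro l hl'
    have h1 := hl l hl'
    rw [efree]
    refine le_trans (le_of_eq ?_) h1
    have mG : Measurable (fun x => ENNReal.ofReal (Real.exp (l * (ff β h n x -
        ∫ y, ff β h n y ∂(Measure.pi fun _ : Fin n => ρ))))) :=
      (Real.measurable_exp.comp (((meas_ff β h n).sub_const _).const_mul l)).ennreal_ofReal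
    have h2 := (key m z).lintegral_comp mG
    rw [← h2]
    refine lintegral_congr fun a => ?_
    rw [lw_eq]

end Pool.Agent.N523.SE.CONC
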