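import Pool.Agent.N662.SE.Stm

/-!
# Exponential moments of functions of independent blocks
-/

set_option autoImplicit false

open MeasureTheory ProbabilityTheory Filter Topology

namespace Pool.Agent.N523.SE.MGF

theorem two_mul_le_exp (t : ℝ) : 2 * t ≤ Real.exp t := by
  by_cases ht : 0 ≤ t
  · have h1 : t ≤ Real.exp (t - 1) := by
      have := Real.add_one_le_exp (t - 1)
      linarith
    have h2 : Real.exp t = Real.exp 1 * Real.exp (t - 1) := by
      rw [← Real.exp_add]; congr 1; ring
    have h3 : (2:ℝ) ≤ Real.exp 1 := by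
      have := Real.add_one_le_exp (1:ℝ)
      linarith
    rw [h2]
    exact mul_le_mul h3 h1 ht (Real.exp_pos 1).le
  · push Not at ht
    have := Real.exp_pos t
    linarith

theorem exp_two (y : ℝ) : Real.exp y ≤ 1 + y + y ^ 2 * Real.exp |y| := by
  have h1 : 1 ≤ Real.exp |y| := Real.one_le_exp (abs_nonneg y)
  by_cases hy : |y| ≤ 1
  · have h2 := Real.abs_exp_sub_one_sub_id_le hy
    have h3 := (abs_le.1 h2).2
    nlinarith [sq_nonneg y]
  · push Not at hy
    have h5 : 1 ≤ y ^ 2 := by
      rw [← sq_abs]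
      nlinarith
    by_cases h0 : 0 ≤ y
    · rw [abs_of_nonneg h0]
      have := Real.exp_pos y
      nlinarith
    · push Not at h0
      have h2 : Real.exp y ≤ 1 := Real.exp_le_one_iff.2 h0.le
      have h3 : |y| = -y := abs_of_neg h0
      have h4 : |y| ≤ y ^ 2 := by
        rw [← sq_abs]
        nlinarith
      nlinarith

theorem exp_mul_le (l x : ℝ) (hl : |l| ≤ 1 / 4) :
    Real.exp (l * x) ≤ 1 + l * x + 16 * l ^ 2 * Real.exp (|x| / 2) := by
  refine (exp_two (l * x)).trans ?_
  have h1 : Real.exp |l * x| ≤ Real.exp (|x| / 4) := by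
    apply Real.exp_le_exp.2
    rw [abs_mul]
    nlinarith [abs_nonneg x]
  have h2 : x ^ 2 ≤ 16 * Real.exp (|x| / 4) := by
    have h3 := two_mul_le_exp (|x| / 8)
    have h4 : Real.exp (|x| / 4) = Real.exp (|x| / 8) ^ 2 := by
      rw [← Real.exp_nat_mul]; congr 1; push_cast; ring
    rw [h4, ← sq_abs]
    have h5 : 0 ≤ |x| / 8 := by positivity
    nlinarith
  have h6 : Real.exp (|x| / 2) = Real.exp (|x| / 4) * Real.exp (|x| / 4) := by
    rw [← Real.exp_add]; congr 1; ring
  have h7 : (l * x) ^ 2 * Real.exp |l * x| ≤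
      (l ^ 2 * (16 * Real.exp (|x| / 4))) * Real.exp (|x| / 4) := by
    rw [mul_pow]
    exact mul_le_mul (mul_le_mul_of_nonneg_left h2 (sq_nonneg _)) h1 (Real.exp_pos _).le
      (by positivity)
  rw [h6]
  linarith

section

variable {E : Type} [MeasurableSpace E] (ρ : Measure E) [IsProbabilityMeasure ρ]

/-- integrability from a finite exponential integral -/
theorem int_of (v : E → ℝ) (mv : Measurable v) (h : ∫⁻ e, ENNReal.ofReal (Real.exp (|v e| / 2)) ∂ρ ≠ ⊤) :
    Integrable (fun e => Real.exp (|v e| / 2)) ρ ∧ Integrable v ρ := by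
  have m1 : Measurable (fun e => Real.exp (|v e| / 2)) := by fun_prop
  have i1 : Integrable (fun e => Real.exp (|v e| / 2)) ρ := by
    refine ⟨m1.aestronglyMeasurable, ?_⟩
    rw [hasFiniteIntegral_iff_ofReal (Eventually.of_forall fun e => (Real.exp_pos _).le)]
    exact lt_top_iff_ne_top.2 h
  refine ⟨i1, (i1.const_mul 1).mono' mv.aestronglyMeasurable (Eventually.of_forall fun e => ?_)⟩
  rw [Real.norm_eq_abs, one_mul]
  have := two_mul_le_exp (|v e| / 2)
  linarith

/-- Jensen's inequality -/
theorem jen (v : E → ℝ) (mv : Measurable v) (iv : Integrable v ρ) :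
    ENNReal.ofReal (Real.exp (|∫ e, v e ∂ρ| / 2)) ≤
      ∫⁻ e, ENNReal.ofReal (Real.exp (|v e| / 2)) ∂ρ := by
  by_cases h : ∫⁻ e, ENNReal.ofReal (Real.exp (|v e| / 2)) ∂ρ = ⊤
  · rw [h]; exact le_top
  · obtain ⟨i1, -⟩ := int_of ρ v mv h
    rw [← ofReal_integral_eq_lintegral_ofReal i1
      (Eventually.of_forall fun e => (Real.exp_pos _).le)]
    apply ENNReal.ofReal_le_ofReal
    have h1 : |∫ e, v e ∂ρ| / 2 ≤ ∫ e, |v e| / 2 ∂ρ := by
      rw [integral_div]
      have := abs_integral_le_integral_abs (f := v) (μ := ρ)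
      linarith
    refine (Real.exp_le_exp.2 h1).trans ?_
    exact convexOn_exp.map_integral_le Real.continuous_exp.continuousOn isClosed_univ
      (Eventually.of_forall fun _ => Set.mem_univ _) (iv.abs.div_const 2) i1

/-- one block -/
theorem block (u : E → ℝ) (mu : Measurable u) (K : ℝ)
    (h : ∫⁻ e, ∫⁻ e', ENNReal.ofReal (Real.exp (|u e - u e'| / 2)) ∂ρ ∂ρ ≤ ENNReal.ofReal K) :
    Integrable u ρ ∧
    ∫⁻ e, ENNReal.ofReal (Real.exp (|u e - ∫ e', u e' ∂ρ| / 2)) ∂ρ ≤ ENNReal.ofReal K ∧
    1 ≤ K ∧ ∫ e, |u e - ∫ e', u e' ∂ρ| ∂ρ ≤ K ∧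
    ∀ l : ℝ, |l| ≤ 1 / 4 →
      ∫⁻ e, ENNReal.ofReal (Real.exp (l * (u e - ∫ e', u e' ∂ρ))) ∂ρ ≤
        ENNReal.ofReal (Real.exp (16 * K * l ^ 2)) := by
  have m2 : Measurable (fun p : E × E => ENNReal.ofReal (Real.exp (|u p.1 - u p.2| / 2))) := by
    fun_prop
  have m1 : Measurable (fun e => ∫⁻ e', ENNReal.ofReal (Real.exp (|u e - u e'| / 2)) ∂ρ) :=
    m2.lintegral_prod_right'
  have hfin : ∀ᵐ e ∂ρ, ∫⁻ e', ENNReal.ofReal (Real.exp (|u e - u e'| / 2)) ∂ρ < ⊤ :=
    ae_lt_top m1 (lt_of_le_of_lt h ENNReal.ofReal_lt_top).ne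
  have iu : Integrable u ρ := by
    obtain ⟨e0, he0⟩ := hfin.exists
    obtain ⟨-, i2⟩ := int_of ρ (fun e' => u e0 - u e') (by fun_prop) he0.ne
    have : u = fun e' => u e0 - (u e0 - u e') := by funext e'; ring
    rw [this]
    exact (integrable_const (u e0)).sub i2
  set m := ∫ e', u e' ∂ρ with hm
  have hD : ∫⁻ e, ENNReal.ofReal (Real.exp (|u e - m| / 2)) ∂ρ ≤ ENNReal.ofReal K := by
    refine (lintegral_mono fun e => ?_).trans h
    have h1 := jen ρ (fun e' => u e - u e') (by fun_prop) ((integrable_const _).sub iu)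
    have h2 : ∫ e', (u e - u e') ∂ρ = u e - m := by
      rw [integral_sub (integrable_const _) iu, integral_const, probReal_univ, one_smul]
    rw [h2] at h1
    exact h1
  obtain ⟨i1, i2⟩ := int_of ρ (fun e => u e - m) (by fun_prop)
    (lt_of_le_of_lt hD ENNReal.ofReal_lt_top).ne
  have hI : ENNReal.ofReal (∫ e, Real.exp (|u e - m| / 2) ∂ρ) ≤ ENNReal.ofReal K := by
    rw [ofReal_integral_eq_lintegral_ofReal i1
      (Eventually.of_forall fun e => (Real.exp_pos _).le)]
    exact hD
  have h1 : 1 ≤ ∫ e, Real.exp (|u e - m| / 2) ∂ρ := by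
    have : ∫ _e : E, (1:ℝ) ∂ρ = 1 := by simp
    rw [← this]
    refine integral_mono (integrable_const _) i1 fun e => ?_
    exact Real.one_le_exp (by positivity)
  have hK : ∫ e, Real.exp (|u e - m| / 2) ∂ρ ≤ K := by
    by_cases hK0 : 0 ≤ K
    · exact (ENNReal.ofReal_le_ofReal_iff hK0).1 hI
    · push Not at hK0
      rw [ENNReal.ofReal_of_nonpos hK0.le] at hI
      have : 0 < ENNReal.ofReal (∫ e, Real.exp (|u e - m| / 2) ∂ρ) :=
        ENNReal.ofReal_pos.2 (by linarith)
      exact absurd hI (not_le.2 this)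
  have K1 : 1 ≤ K := h1.trans hK
  refine ⟨iu, hD, K1, ?_, ?_⟩
  · refine (integral_mono i2.abs i1 fun e => ?_).trans hK
    have := two_mul_le_exp (|u e - m| / 2)
    show |u e - m| ≤ Real.exp (|u e - m| / 2)
    linarith
  · intro l hl
    have i3 : Integrable (fun e => 1 + l * (u e - m) + 16 * l ^ 2 * Real.exp (|u e - m| / 2)) ρ :=
      ((integrable_const _).add (i2.const_mul l)).add (i1.const_mul _)
    have h2 : ∫⁻ e, ENNReal.ofReal (Real.exp (l * (u e - m))) ∂ρ ≤
        ∫⁻ e, ENNReal.ofReal (1 + l * (u e - m) + 16 * l ^ 2 * Real.exp (|u e - m| / 2)) ∂ρ :=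
      lintegral_mono fun e => ENNReal.ofReal_le_ofReal (exp_mul_le l _ hl)
    refine h2.trans ?_
    rw [← ofReal_integral_eq_lintegral_ofReal i3 (Eventually.of_forall fun e =>
      (Real.exp_pos _).le.trans (exp_mul_le l _ hl))]
    apply ENNReal.ofReal_le_ofReal
    have i4 : Integrable (fun e => 1 + l * (u e - m)) ρ :=
      (integrable_const _).add (i2.const_mul l)
    rw [integral_add i4 (i1.const_mul _), integral_add (integrable_const _) (i2.const_mul l),
      integral_const_mul, integral_const_mul, integral_sub iu (integrable_const _)]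
    simp only [integral_const, probReal_univ, smul_eq_mul, one_mul, ← hm, sub_self, mul_zero,
      add_zero]
    have h3 : 16 * l ^ 2 * ∫ e, Real.exp (|u e - m| / 2) ∂ρ ≤ 16 * l ^ 2 * K :=
      mul_le_mul_of_nonneg_left hK (by positivity)
    have h4 := Real.add_one_le_exp (16 * K * l ^ 2)
    linarith

/-- the symmetric form of the hypothesis -/
def Sym (ρ : Measure E) (K : ℝ) {n : ℕ} (f : (Fin n → E) → ℝ) : Prop :=
  ∀ (i : Fin n) (x : Fin n → E), ∫⁻ e, ∫⁻ e', ENNReal.ofReal
    (Real.exp (|f (Function.update x i e) - f (Function.update x i e')| / 2)) ∂ρ ∂ρ ≤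
      ENNReal.ofReal K

theorem main_ind (K : ℝ) (hK : 0 ≤ K) (n : ℕ) : ∀ f : (Fin n → E) → ℝ, Measurable f →
    Sym ρ K f →
    Integrable f (Measure.pi fun _ => ρ) ∧ ∀ l : ℝ, |l| ≤ 1 / 4 →
    ∫⁻ x, ENNReal.ofReal (Real.exp (l * (f x - ∫ y, f y ∂(Measure.pi fun _ => ρ))))
      ∂(Measure.pi fun _ => ρ) ≤ ENNReal.ofReal (Real.exp (16 * K * l ^ 2 * n)) := by
  induction n with
  | zero =>
    intro f mf _
    have hc : ∀ x, f x = f Fin.elim0 := fun x => by congr 1; exact Subsingleton.elim _ _
    have hf : f = fun _ => f Fin.elim0 := funext hc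
    refine ⟨by rw [hf]; exact integrable_const _, fun l _ => ?_⟩
    rw [hf]
    simp
  | succ n ih =>
    intro f mf hS
    -- the function of the first block and of the others
    set φ : E × (Fin n → E) → ℝ := fun p => f (Fin.cons p.1 p.2) with hφ
    have mcons : Measurable (fun p : E × (Fin n → E) => (Fin.cons p.1 p.2 : Fin (n+1) → E)) := by
      refine measurable_pi_iff.2 fun i => ?_
      refine Fin.cases ?_ (fun j => ?_) i
      · simpa using measurable_fst
      · simp only [Fin.cons_succ]
        exact (measurable_pi_apply j).comp measurable_snd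
    have mφ : Measurable φ := mf.comp mcons
    have hmp := measurePreserving_piFinSuccAbove (fun _ : Fin (n+1) => ρ) 0
    have hsymm : ∀ p : E × (Fin n → E),
        (MeasurableEquiv.piFinSuccAbove (fun _ : Fin (n+1) => E) 0).symm p =
          (Fin.cons p.1 p.2 : Fin (n+1) → E) := by
      intro p
      simp [MeasurableEquiv.piFinSuccAbove, Fin.insertNthEquiv]
    have hφ' : ∀ x, φ ((MeasurableEquiv.piFinSuccAbove (fun _ : Fin (n+1) => E) 0) x) = f x := by
      intro x
      have := hsymm ((MeasurableEquiv.piFinSuccAbove (fun _ : Fin (n+1) => E) 0) x)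
      rw [MeasurableEquiv.symm_apply_apply] at this
      rw [hφ]
      show f _ = f x
      rw [← this]
    obtain ⟨e0⟩ : Nonempty E := nonempty_of_isProbabilityMeasure ρ
    have hb : ∀ T, _ := fun T => block ρ (fun e => φ (e, T)) (mφ.comp measurable_prodMk_right) K
      (by
        have := hS 0 (Fin.cons e0 T)
        simpa only [Fin.update_cons_zero] using this)
    set F : (Fin n → E) → ℝ := fun T => ∫ e, φ (e, T) ∂ρ with hF
    have mF : Measurable F := (mφ.stronglyMeasurable.integral_prod_left').measurable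
    have SF : Sym ρ K F := by
      intro j T
      set H : E → E → E → ENNReal := fun e1 e2 e => ENNReal.ofReal
        (Real.exp (|φ (e, Function.update T j e1) - φ (e, Function.update T j e2)| / 2)) with hH
      have mH : Measurable (fun p : (E × E) × E => H p.1.1 p.1.2 p.2) := by
        have h1 : Measurable (fun p : (E × E) × E => φ (p.2, Function.update T j p.1.1)) :=
          mφ.comp (measurable_snd.prodMk
            ((measurable_update T).comp (measurable_fst.comp measurable_fst)))
        have h2 : Measurable (fun p : (E × E) × E => φ (p.2, Function.update T j p.1.2)) :=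
          mφ.comp (measurable_snd.prodMk
            ((measurable_update T).comp (measurable_snd.comp measurable_fst)))
        exact (Real.measurable_exp.comp ((h1.sub h2).abs.div_const 2)).ennreal_ofReal
      have s1 : ∀ e1 e2, ENNReal.ofReal
          (Real.exp (|F (Function.update T j e1) - F (Function.update T j e2)| / 2)) ≤
          ∫⁻ e, H e1 e2 e ∂ρ := by
        intro e1 e2
        have h1 := jen ρ (fun e => φ (e, Function.update T j e1) - φ (e, Function.update T j e2))
          ((mφ.comp measurable_prodMk_right).sub (mφ.comp measurable_prodMk_right))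
          ((hb _).1.sub (hb _).1)
        rw [integral_sub (hb _).1 (hb _).1] at h1
        exact h1
      clear_value H
      have s2 : ∀ e1, ∫⁻ e2, ∫⁻ e, H e1 e2 e ∂ρ ∂ρ = ∫⁻ e, ∫⁻ e2, H e1 e2 e ∂ρ ∂ρ := by
        intro e1
        have m1 : Measurable (fun p : E × E => ((e1, p.1), p.2)) :=
          (measurable_const.prodMk measurable_fst).prodMk measurable_snd
        have m2 : Measurable (Function.uncurry (H e1)) := mH.comp m1
        exact lintegral_lintegral_swap m2.aemeasurable
      have s3 : ∫⁻ e1, ∫⁻ e, ∫⁻ e2, H e1 e2 e ∂ρ ∂ρ ∂ρ =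
          ∫⁻ e, ∫⁻ e1, ∫⁻ e2, H e1 e2 e ∂ρ ∂ρ ∂ρ := by
        have m1 : Measurable (fun q : (E × E) × E => ((q.1.1, q.2), q.1.2)) :=
          ((measurable_fst.comp measurable_fst).prodMk measurable_snd).prodMk
            (measurable_snd.comp measurable_fst)
        have m2 : Measurable (fun q : (E × E) × E => H q.1.1 q.2 q.1.2) := mH.comp m1
        have m3 : Measurable (fun q : E × E => ∫⁻ e2, H q.1 e2 q.2 ∂ρ) :=
          Measurable.lintegral_prod_right' (f := fun q : (E × E) × E => H q.1.1 q.2 q.1.2) m2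
        exact lintegral_lintegral_swap (f := fun e1 e => ∫⁻ e2, H e1 e2 e ∂ρ) m3.aemeasurable
      calc _ ≤ ∫⁻ e1, ∫⁻ e2, ∫⁻ e, H e1 e2 e ∂ρ ∂ρ ∂ρ :=
            lintegral_mono fun e1 => lintegral_mono fun e2 => s1 e1 e2
        _ = ∫⁻ e, ∫⁻ e1, ∫⁻ e2, H e1 e2 e ∂ρ ∂ρ ∂ρ := by
            rw [← s3]
            exact lintegral_congr fun e1 => s2 e1
        _ ≤ ∫⁻ _e, ENNReal.ofReal K ∂ρ := by
            refine lintegral_mono fun e => ?_
            have := hS j.succ (Fin.cons e T)
            rw [hH]
            simpa only [← Fin.cons_update] using this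
        _ = ENNReal.ofReal K := by simp
    obtain ⟨iF, hFl⟩ := ih F mF SF
    have hbF : ∀ T, ∫ e', (fun e => φ (e, T)) e' ∂ρ = F T := fun T => rfl
    have iφ : Integrable φ (ρ.prod (Measure.pi fun _ => ρ)) := by
      refine (integrable_prod_iff' mφ.aestronglyMeasurable).2
        ⟨Eventually.of_forall fun T => (hb T).1, ?_⟩
      refine (iF.abs.add (integrable_const K)).mono'
        (mφ.norm.stronglyMeasurable.integral_prod_left').aestronglyMeasurable
        (Eventually.of_forall fun T => ?_)
      rw [Real.norm_eq_abs, abs_of_nonneg (integral_nonneg fun _ => norm_nonneg _)]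
      have i1 := (hb T).1
      have i2 : Integrable (fun e => |φ (e, T) - F T|) ρ := (i1.sub (integrable_const _)).abs
      have h1 : ∫ e, ‖φ (e, T)‖ ∂ρ ≤ ∫ e, (|F T| + |φ (e, T) - F T|) ∂ρ := by
        refine integral_mono i1.norm ((integrable_const _).add i2) fun e => ?_
        show |φ (e, T)| ≤ |F T| + |φ (e, T) - F T|
        have := abs_add_le (F T) (φ (e, T) - F T)
        have e1 : F T + (φ (e, T) - F T) = φ (e, T) := by ring
        rw [e1] at this
        exact this
      rw [integral_add (integrable_const _) i2, integral_const, probReal_univ, one_smul] at h1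
      have h2 := (hb T).2.2.2.1
      show ∫ e, ‖φ (e, T)‖ ∂ρ ≤ |F T| + K
      exact h1.trans (by have : ∫ e, |φ (e, T) - F T| ∂ρ ≤ K := h2
                         linarith)
    have hint : ∫ y, f y ∂(Measure.pi fun _ => ρ) = ∫ T, F T ∂(Measure.pi fun _ => ρ) := by
      have h1 := hmp.integral_comp' (g := φ)
      rw [integral_prod_symm φ iφ] at h1
      rw [← h1]
      exact integral_congr_ae (Eventually.of_forall fun x => (hφ' x).symm)
    refine ⟨?_, ?_⟩
    · have h1 := (hmp.integrable_comp mφ.aestronglyMeasurable).2 iφ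
      exact h1.congr (Eventually.of_forall fun x => hφ' x)
    · intro l hl
      rw [hint]
      set m := ∫ T, F T ∂(Measure.pi fun _ => ρ) with hm
      have mG : Measurable (fun p => ENNReal.ofReal (Real.exp (l * (φ p - m)))) := by
        exact (Real.measurable_exp.comp ((mφ.sub_const m).const_mul l)).ennreal_ofReal
      have h1 := hmp.lintegral_comp mG
      have h2 : ∫⁻ x, ENNReal.ofReal (Real.exp (l * (f x - m)))
          ∂(Measure.pi fun _ : Fin (n+1) => ρ) =
          ∫⁻ p, ENNReal.ofReal (Real.exp (l * (φ p - m))) ∂(ρ.prod (Measure.pi fun _ => ρ)) := by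
        rw [← h1]
        refine lintegral_congr fun x => ?_
        rw [hφ' x]
      rw [h2, lintegral_prod_symm' _ mG]
      have h3 : ∀ T, ∫⁻ e, ENNReal.ofReal (Real.exp (l * (φ (e, T) - m))) ∂ρ ≤
          ENNReal.ofReal (Real.exp (l * (F T - m))) *
            ENNReal.ofReal (Real.exp (16 * K * l ^ 2)) := by
        intro T
        have h4 : ∀ e, ENNReal.ofReal (Real.exp (l * (φ (e, T) - m))) =
            ENNReal.ofReal (Real.exp (l * (F T - m))) *
              ENNReal.ofReal (Real.exp (l * (φ (e, T) - F T))) := by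
          intro e
          rw [← ENNReal.ofReal_mul (Real.exp_pos _).le, ← Real.exp_add]
          congr 2; ring
        rw [lintegral_congr h4, lintegral_const_mul' _ _ ENNReal.ofReal_ne_top]
        gcongr
        exact (hb T).2.2.2.2 l hl
      refine (lintegral_mono h3).trans ?_
      rw [lintegral_mul_const' _ _ ENNReal.ofReal_ne_top]
      have h5 : ENNReal.ofReal (Real.exp (16 * K * l ^ 2 * ((n + 1 : ℕ) : ℝ))) =
          ENNReal.ofReal (Real.exp (16 * K * l ^ 2 * n)) *
            ENNReal.ofReal (Real.exp (16 * K * l ^ 2)) := by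
        rw [← ENNReal.ofReal_mul (Real.exp_pos _).le, ← Real.exp_add]
        congr 2; push_cast; ring
      rw [h5]
      gcongr
      exact hFl l hl

/-- MGF -/
theorem main : Pool.Agent.N662.SE.S_MGF := by
  intro E _ ρ _ n f g K mf mg hg h
  have hS : ∀ i : Fin n, ∀ x, ∫⁻ e, ∫⁻ e', ENNReal.ofReal
      (Real.exp (|f (Function.update x i e) - f (Function.update x i e')| / 2)) ∂ρ ∂ρ ≤
      ENNReal.ofReal K := by
    intro i x
    have m1 : Measurable (fun e => ENNReal.ofReal (Real.exp |f (Function.update x i e) - g i x|)) :=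
      (Real.measurable_exp.comp ((mf.comp (measurable_update x)).sub_const _).abs).ennreal_ofReal
    have h1 : ∀ e e', ENNReal.ofReal
        (Real.exp (|f (Function.update x i e) - f (Function.update x i e')| / 2)) ≤
        (ENNReal.ofReal (Real.exp |f (Function.update x i e) - g i x|) +
          ENNReal.ofReal (Real.exp |f (Function.update x i e') - g i x|)) / 2 := by
      intro e e'
      rw [← ENNReal.ofReal_add (Real.exp_pos _).le (Real.exp_pos _).le]
      have h2 : (2 : ENNReal) = ENNReal.ofReal 2 := by simp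
      rw [h2, ← ENNReal.ofReal_div_of_pos two_pos]
      apply ENNReal.ofReal_le_ofReal
      set a := |f (Function.update x i e) - g i x| with ha
      set b := |f (Function.update x i e') - g i x| with hb
      have h3 : |f (Function.update x i e) - f (Function.update x i e')| ≤ a + b := by
        have := abs_sub_le (f (Function.update x i e)) (g i x) (f (Function.update x i e'))
        rw [abs_sub_comm (g i x)] at this
        exact this
      have h4 : Real.exp (|f (Function.update x i e) - f (Function.update x i e')| / 2) ≤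
          Real.exp (a / 2) * Real.exp (b / 2) := by
        rw [← Real.exp_add]
        apply Real.exp_le_exp.2
        linarith
      have h5 : Real.exp a = Real.exp (a / 2) * Real.exp (a / 2) := by
        rw [← Real.exp_add]; congr 1; ring
      have h6 : Real.exp b = Real.exp (b / 2) * Real.exp (b / 2) := by
        rw [← Real.exp_add]; congr 1; ring
      rw [h5, h6]
      nlinarith [sq_nonneg (Real.exp (a / 2) - Real.exp (b / 2))]
    refine (lintegral_mono fun e => lintegral_mono fun e' => h1 e e').trans ?_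
    have h7 : ∀ e, ∫⁻ e', (ENNReal.ofReal (Real.exp |f (Function.update x i e) - g i x|) +
          ENNReal.ofReal (Real.exp |f (Function.update x i e') - g i x|)) / 2 ∂ρ ≤
        (ENNReal.ofReal (Real.exp |f (Function.update x i e) - g i x|) +
          ENNReal.ofReal K) / 2 := by
      intro e
      simp only [div_eq_mul_inv]
      rw [lintegral_mul_const' _ _ (by simp), lintegral_add_left measurable_const]
      simp only [lintegral_const, measure_univ, mul_one]
      gcongr
      exact h i x
    refine (lintegral_mono h7).trans ?_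
    simp only [div_eq_mul_inv]
    rw [lintegral_mul_const' _ _ (by simp), lintegral_add_left m1]
    simp only [lintegral_const, measure_univ, mul_one]
    calc _ ≤ (ENNReal.ofReal K + ENNReal.ofReal K) * 2⁻¹ := by
          gcongr
          exact h i x
      _ = ENNReal.ofReal K := by
          rw [← two_mul, mul_comm, ← mul_assoc, ENNReal.inv_mul_cancel (by simp) (by simp),
            one_mul]
  by_cases hK : 0 ≤ K
  · exact main_ind ρ K hK n f mf hS
  · -- then there is no block
    push Not at hK
    cases n with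
    | zero =>
      have h0 := main_ind ρ 0 le_rfl 0 f mf (fun i => i.elim0)
      refine ⟨h0.1, fun l hl => ?_⟩
      have := h0.2 l hl
      simpa using this
    | succ n =>
      exfalso
      obtain ⟨e0⟩ : Nonempty E := nonempty_of_isProbabilityMeasure ρ
      have h1 := h 0 (fun _ => e0)
      rw [ENNReal.ofReal_of_nonpos hK.le] at h1
      have h2 : (1 : ENNReal) ≤ ∫⁻ e, ENNReal.ofReal
          (Real.exp |f (Function.update (fun _ => e0) 0 e) - g 0 (fun _ => e0)|) ∂ρ := by
        have : (1 : ENNReal) = ∫⁻ _e : E, 1 ∂ρ := by simp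
        rw [this]
        refine lintegral_mono fun e => ?_
        rw [← ENNReal.ofReal_one]
        exact ENNReal.ofReal_le_ofReal (Real.one_le_exp (abs_nonneg _))
      have := h2.trans h1
      simp at this

end

end Pool.Agent.N523.SE.MGF
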